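import Pool.Agent.P.MP_68f206_al.Sd.Fam

set_option autoImplicit false

namespace Pool.Agent.Results.MP_68f206_al.ManyPartners

open Pool.Agent.P.MP_68f206_al.Sd

theorem result (n : ℕ) (hn : 7 ≤ n) :
    ∃ (A : Type) (C : Ops A) (b : A), Nat.card A = n ∧ MinimalBW C ∧
      {a | a ≠ b ∧ Sg C {a, b} = Set.univ ∧ ¬ Closed C (Sg C {a, b} \ {a})}.ncard =
        if n ≤ 8 then n - 6 else n - 5 := by
  by_cases h7 : n = 7
  · obtain ⟨C, hC, e⟩ := ex7
    exact ⟨Fin 7, C, 3, by simp [h7], hC, by rw [e, h7]; simp⟩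
  by_cases h8 : n = 8
  · obtain ⟨C, hC, e⟩ := ex8
    exact ⟨Fin 8, C, 4, by simp [h8], hC, by rw [e, h8, Set.ncard_pair (by decide)]; simp⟩
  obtain ⟨C, hC, e⟩ := exL (n - 5) (by omega)
  refine ⟨_, C, Sum.inr none, by simp; omega, hC, ?_⟩
  rw [e, if_neg (by omega), Set.ncard_range_of_injective Sum.inl_injective]
  simp

end Pool.Agent.Results.MP_68f206_al.ManyPartners
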